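import Pool.Agent.W482.LR.Stm

set_option autoImplicit false

/-!
Project LR (helper482), part LPE: the polytope is a combinatorial cube, bounds and vertices.
-/

namespace Pool.Agent.W305.LR

open Finset Pool.Agent.W482.LR

section

variable {J X : Type} [DecidableEq J] [Fintype X] [DecidableEq X] (bl : X → Option (J × ℕ))
  (D : ℕ)

/-- the sum over the previous block -/
def QQ (y : X → ℝ) (l : X) : ℝ := ∑ m ∈ pre bl l, y m

/-- the rank of a variable -/
def rk (l : X) : ℕ :=
  match bl l with
  | some (_, i) => i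
  | none => 0

omit [DecidableEq X] in
lemma mem_blk {j : J} {i : ℕ} {l : X} : l ∈ blk bl j i ↔ bl l = some (j, i) := by
  simp [blk]

omit [DecidableEq X] in
lemma pre_some {j : J} {i : ℕ} {l : X} (hl : bl l = some (j, i + 1)) :
    pre bl l = blk bl j i := by
  unfold pre
  rw [hl]

omit [DecidableEq X] in
lemma pre_zero {j : J} {l : X} (hl : bl l = some (j, 0)) : pre bl l = ∅ := by
  unfold pre
  rw [hl]

omit [DecidableEq X] in
lemma pre_none {l : X} (hl : bl l = none) : pre bl l = ∅ := by
  unfold pre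
  rw [hl]

omit [Fintype X] [DecidableEq X] [DecidableEq J] in
lemma rk_some {j : J} {i : ℕ} {l : X} (hl : bl l = some (j, i)) : rk bl l = i := by
  unfold rk
  rw [hl]

omit [DecidableEq X] in
lemma rk_lt {l m : X} (h : m ∈ pre bl l) : rk bl m < rk bl l := by
  rcases hl : bl l with _ | ⟨j, _ | i⟩
  · rw [pre_none bl hl] at h
    exact absurd h (Finset.notMem_empty _)
  · rw [pre_zero bl hl] at h
    exact absurd h (Finset.notMem_empty _)
  · rw [pre_some bl hl, mem_blk] at h
    rw [rk_some bl h, rk_some bl hl]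
    exact Nat.lt_succ_self i

omit [DecidableEq X] in
lemma card_pre {β : ℕ} (hβ : ∀ j i, (blk bl j i).card ≤ β) (l : X) : (pre bl l).card ≤ β := by
  rcases hl : bl l with _ | ⟨j, _ | i⟩
  · rw [pre_none bl hl]
    exact Nat.zero_le _
  · rw [pre_zero bl hl]
    exact Nat.zero_le _
  · rw [pre_some bl hl]
    exact hβ j i

/-- the equations of the point with the parameters `lam` -/
def EE (lam y : X → ℝ) : Prop :=
  ∀ l, (D : ℝ) * y l = QQ bl y l + lam l * ((D : ℝ) - 2 * QQ bl y l)

omit [DecidableEq X] in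
lemma EE_unique (hD : 0 < D) {lam y y' : X → ℝ} (h : EE bl D lam y) (h' : EE bl D lam y') :
    y = y' := by
  have hD' : (D : ℝ) ≠ 0 := by exact_mod_cast hD.ne'
  have key : ∀ n, ∀ l, rk bl l = n → y l = y' l := by
    intro n
    induction n using Nat.strong_induction_on with
    | _ n ih =>
      intro l hl
      have hQ : QQ bl y l = QQ bl y' l := by
        refine Finset.sum_congr rfl fun m hm => ?_
        exact ih (rk bl m) (hl ▸ rk_lt bl hm) m rfl
      have h1 := h l
      have h2 := h' l
      rw [hQ] at h1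
      exact mul_left_cancel₀ hD' (h1.trans h2.symm)
  exact funext fun l => key _ l rfl

/-- the excess sums -/
noncomputable def pp (lam : X → ℝ) (j : J) : ℕ → ℝ
  | 0 => 0
  | i + 1 => ∑ l ∈ blk bl j i, (pp lam j i / D + lam l * (1 - 2 * (pp lam j i / D)))

/-- the excess sum seen by a variable -/
noncomputable def ip (lam : X → ℝ) (l : X) : ℝ :=
  match bl l with
  | some (j, i) => pp bl D lam j i
  | none => 0

omit [DecidableEq X] in
lemma ip_some {lam : X → ℝ} {j : J} {i : ℕ} {l : X} (hl : bl l = some (j, i)) :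
    ip bl D lam l = pp bl D lam j i := by
  unfold ip
  rw [hl]

omit [DecidableEq X] in
lemma ip_none {lam : X → ℝ} {l : X} (hl : bl l = none) : ip bl D lam l = 0 := by
  unfold ip
  rw [hl]

/-- the point with the parameters `lam` -/
noncomputable def YY (lam : X → ℝ) (l : X) : ℝ :=
  ip bl D lam l / D + lam l * (1 - 2 * (ip bl D lam l / D))

omit [DecidableEq X] in
lemma QQ_YY (lam : X → ℝ) (l : X) : QQ bl (YY bl D lam) l = ip bl D lam l := by
  unfold QQ
  rcases hl : bl l with _ | ⟨j, _ | i⟩
  · rw [pre_none bl hl, ip_none bl D hl, Finset.sum_empty]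
  · rw [pre_zero bl hl, ip_some bl D hl, Finset.sum_empty]
    rfl
  · rw [pre_some bl hl, ip_some bl D hl]
    change _ = ∑ l ∈ blk bl j i, (pp bl D lam j i / D + lam l * (1 - 2 * (pp bl D lam j i / D)))
    refine Finset.sum_congr rfl fun m hm => ?_
    unfold YY
    rw [ip_some bl D ((mem_blk bl).1 hm)]

omit [DecidableEq X] in
lemma EE_YY (hD : 0 < D) (lam : X → ℝ) : EE bl D lam (YY bl D lam) := by
  have hD' : (D : ℝ) ≠ 0 := by exact_mod_cast hD.ne'
  intro l
  rw [QQ_YY]
  unfold YY
  field_simp

omit [DecidableEq X] in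
lemma pp_bd {β : ℕ} (hβ : ∀ j i, (blk bl j i).card ≤ β) (hD : 2 * β < D) {lam : X → ℝ}
    (h0 : ∀ l, 0 ≤ lam l) (h1 : ∀ l, lam l ≤ 1) (j : J) (i : ℕ) :
    0 ≤ pp bl D lam j i ∧ pp bl D lam j i ≤ β := by
  have hD0 : (0 : ℝ) < D := by
    have : 0 < D := by omega
    exact_mod_cast this
  have hD1 : (2 : ℝ) * β < D := by exact_mod_cast hD
  induction i with
  | zero => exact ⟨le_rfl, Nat.cast_nonneg _⟩
  | succ i ih =>
    obtain ⟨ih0, ih1⟩ := ih
    have ht0 : 0 ≤ pp bl D lam j i / D := by positivity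
    have ht1 : pp bl D lam j i / D ≤ 1 / 2 := by
      rw [div_le_div_iff₀ hD0 two_pos]
      linarith
    have hterm : ∀ l, 0 ≤ pp bl D lam j i / D + lam l * (1 - 2 * (pp bl D lam j i / D)) ∧
        pp bl D lam j i / D + lam l * (1 - 2 * (pp bl D lam j i / D)) ≤ 1 := by
      intro l
      have a0 := h0 l
      have a1 := h1 l
      have b0 : 0 ≤ 1 - 2 * (pp bl D lam j i / D) := by linarith
      constructor
      · positivity
      · nlinarith
    change 0 ≤ ∑ l ∈ blk bl j i, (pp bl D lam j i / D + lam l * (1 - 2 * (pp bl D lam j i / D))) ∧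
      ∑ l ∈ blk bl j i, (pp bl D lam j i / D + lam l * (1 - 2 * (pp bl D lam j i / D))) ≤ β
    refine ⟨Finset.sum_nonneg fun l _ => (hterm l).1, ?_⟩
    calc ∑ l ∈ blk bl j i, (pp bl D lam j i / D + lam l * (1 - 2 * (pp bl D lam j i / D)))
        ≤ ∑ l ∈ blk bl j i, (1 : ℝ) := Finset.sum_le_sum fun l _ => (hterm l).2
      _ = ((blk bl j i).card : ℝ) := by simp
      _ ≤ β := by exact_mod_cast hβ j i

omit [DecidableEq X] in
lemma ip_bd {β : ℕ} (hβ : ∀ j i, (blk bl j i).card ≤ β) (hD : 2 * β < D) {lam : X → ℝ}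
    (h0 : ∀ l, 0 ≤ lam l) (h1 : ∀ l, lam l ≤ 1) (l : X) :
    0 ≤ ip bl D lam l ∧ ip bl D lam l ≤ β := by
  rcases hl : bl l with _ | ⟨j, i⟩
  · rw [ip_none bl D hl]
    exact ⟨le_rfl, Nat.cast_nonneg _⟩
  · rw [ip_some bl D hl]
    exact pp_bd bl D hβ hD h0 h1 j i

/-- membership in terms of the excess coordinates -/
def PM (y : X → ℝ) : Prop :=
  ∀ l, QQ bl y l ≤ (D : ℝ) * y l ∧ (D : ℝ) * y l + QQ bl y l ≤ D

omit [DecidableEq X] in
lemma PM_bd {β : ℕ} (hβ : ∀ j i, (blk bl j i).card ≤ β) (hD : 2 * β < D) {y : X → ℝ}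
    (h : PM bl D y) : (∀ l, 0 ≤ y l ∧ y l ≤ 1) ∧ ∀ l, 0 ≤ QQ bl y l ∧ QQ bl y l ≤ β := by
  have hD0 : (0 : ℝ) < D := by
    have : 0 < D := by omega
    exact_mod_cast this
  have hQ : ∀ l, (∀ m ∈ pre bl l, 0 ≤ y m ∧ y m ≤ 1) → 0 ≤ QQ bl y l ∧ QQ bl y l ≤ β := by
    intro l hl
    refine ⟨Finset.sum_nonneg fun m hm => (hl m hm).1, ?_⟩
    calc QQ bl y l ≤ ∑ m ∈ pre bl l, (1 : ℝ) := Finset.sum_le_sum fun m hm => (hl m hm).2
      _ = ((pre bl l).card : ℝ) := by simp
      _ ≤ β := by exact_mod_cast card_pre bl hβ l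
  have key : ∀ n, ∀ l, rk bl l = n → 0 ≤ y l ∧ y l ≤ 1 := by
    intro n
    induction n using Nat.strong_induction_on with
    | _ n ih =>
      intro l hl
      obtain ⟨q0, q1⟩ := hQ l fun m hm => ih (rk bl m) (hl ▸ rk_lt bl hm) m rfl
      obtain ⟨h1, h2⟩ := h l
      constructor
      · by_contra hcon
        push Not at hcon
        nlinarith
      · by_contra hcon
        push Not at hcon
        nlinarith
  exact ⟨fun l => key _ l rfl, fun l => hQ l fun m _ => key _ m rfl⟩

omit [DecidableEq X] in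
lemma PM_YY {β : ℕ} (hβ : ∀ j i, (blk bl j i).card ≤ β) (hD : 2 * β < D) {lam : X → ℝ}
    (h0 : ∀ l, 0 ≤ lam l) (h1 : ∀ l, lam l ≤ 1) : PM bl D (YY bl D lam) := by
  have hD0 : 0 < D := by omega
  have hD1 : (2 : ℝ) * β < D := by exact_mod_cast hD
  intro l
  have h2 := EE_YY bl D hD0 lam l
  obtain ⟨q0, q1⟩ := ip_bd bl D hβ hD h0 h1 l
  rw [QQ_YY] at h2 ⊢
  have h3 := h0 l
  have h4 := h1 l
  rw [h2]
  constructor <;> nlinarith

omit [DecidableEq X] in
lemma exists_lam {β : ℕ} (hβ : ∀ j i, (blk bl j i).card ≤ β) (hD : 2 * β < D) {y : X → ℝ}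
    (h : PM bl D y) : ∃ lam : X → ℝ, (∀ l, 0 ≤ lam l) ∧ (∀ l, lam l ≤ 1) ∧
      y = YY bl D lam := by
  have hD0 : 0 < D := by omega
  have hD1 : (2 : ℝ) * β < D := by exact_mod_cast hD
  obtain ⟨_, hQ⟩ := PM_bd bl D hβ hD h
  have hpos : ∀ l, 0 < (D : ℝ) - 2 * QQ bl y l := fun l => by
    have := (hQ l).2
    linarith
  refine ⟨fun l => ((D : ℝ) * y l - QQ bl y l) / ((D : ℝ) - 2 * QQ bl y l), ?_, ?_, ?_⟩
  · intro l
    have h1 := (h l).1
    exact div_nonneg (by linarith) (hpos l).le
  · intro l
    have h1 := (h l).2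
    rw [div_le_one (hpos l)]
    linarith
  · refine EE_unique bl D hD0 ?_ (EE_YY bl D hD0 _)
    intro l
    change (D : ℝ) * y l = QQ bl y l + ((D : ℝ) * y l - QQ bl y l) /
      ((D : ℝ) - 2 * QQ bl y l) * ((D : ℝ) - 2 * QQ bl y l)
    rw [div_mul_cancel₀ _ (hpos l).ne']
    ring

lemma pp_update {lam : X → ℝ} {a : X} {s : ℝ} {j₀ : J} {i₀ : ℕ} (ha : bl a = some (j₀, i₀))
    (j : J) (i : ℕ) (hi : i ≤ i₀) :
    pp bl D (Function.update lam a s) j i = pp bl D lam j i := by
  induction i with
  | zero => rfl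
  | succ i ih =>
    have ih' := ih (by omega)
    change ∑ l ∈ blk bl j i, (pp bl D (Function.update lam a s) j i / D +
      (Function.update lam a s) l * (1 - 2 * (pp bl D (Function.update lam a s) j i / D))) =
      ∑ l ∈ blk bl j i, (pp bl D lam j i / D + lam l * (1 - 2 * (pp bl D lam j i / D)))
    refine Finset.sum_congr rfl fun l hl => ?_
    have hla : l ≠ a := by
      rintro rfl
      rw [mem_blk, ha] at hl
      have := congrArg Prod.snd (Option.some.inj hl)
      simp only at this
      omega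
    rw [ih', Function.update_of_ne hla]

lemma ip_update {lam : X → ℝ} {a : X} {s : ℝ} :
    ip bl D (Function.update lam a s) a = ip bl D lam a := by
  rcases ha : bl a with _ | ⟨j, i⟩
  · rw [ip_none bl D ha, ip_none bl D ha]
  · rw [ip_some bl D ha, ip_some bl D ha]
    exact pp_update bl D ha j i le_rfl

lemma YY_affine (hD : 0 < D) (lam : X → ℝ) (a : X) :
    YY bl D lam = fun l => (1 - lam a) * YY bl D (Function.update lam a 0) l +
      lam a * YY bl D (Function.update lam a 1) l := by
  refine EE_unique bl D hD (EE_YY bl D hD lam) ?_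
  intro l
  have hQ : QQ bl (fun l => (1 - lam a) * YY bl D (Function.update lam a 0) l +
      lam a * YY bl D (Function.update lam a 1) l) l =
      (1 - lam a) * QQ bl (YY bl D (Function.update lam a 0)) l +
        lam a * QQ bl (YY bl D (Function.update lam a 1)) l := by
    unfold QQ
    rw [Finset.sum_add_distrib, ← Finset.mul_sum, ← Finset.mul_sum]
  have h0 := EE_YY bl D hD (Function.update lam a 0) l
  have h1 := EE_YY bl D hD (Function.update lam a 1) l
  rw [hQ]
  beta_reduce
  rw [mul_add, mul_left_comm, h0, mul_left_comm (D : ℝ) (lam a), h1]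
  by_cases hla : l = a
  · subst hla
    have e0 : QQ bl (YY bl D (Function.update lam l 0)) l = ip bl D lam l := by
      rw [QQ_YY, ip_update]
    have e1 : QQ bl (YY bl D (Function.update lam l 1)) l = ip bl D lam l := by
      rw [QQ_YY, ip_update]
    rw [e0, e1, Function.update_self, Function.update_self]
    ring
  · rw [Function.update_of_ne hla, Function.update_of_ne hla]
    ring

lemma YY_ne {β : ℕ} (hβ : ∀ j i, (blk bl j i).card ≤ β) (hD : 2 * β < D) {lam : X → ℝ}
    (h0 : ∀ l, 0 ≤ lam l) (h1 : ∀ l, lam l ≤ 1) (a : X) :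
    YY bl D (Function.update lam a 0) ≠ YY bl D (Function.update lam a 1) := by
  intro hcon
  have hD0 : (0 : ℝ) < D := by
    have : 0 < D := by omega
    exact_mod_cast this
  have hD1 : (2 : ℝ) * β < D := by exact_mod_cast hD
  have h2 := congrFun hcon a
  unfold YY at h2
  rw [ip_update, ip_update, Function.update_self, Function.update_self] at h2
  have h3 := (ip_bd bl D hβ hD h0 h1 a).2
  have h4 : ip bl D lam a / D < 1 / 2 := by
    rw [div_lt_div_iff₀ hD0 two_pos]
    linarith
  linarith

/-! ### the vertices -/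

/-- the indicator -/
def ind (v : X → Bool) (l : X) : ℝ := if v l then 1 else 0

omit [DecidableEq X] in
lemma pp_ind (v : X → Bool) (j : J) (i : ℕ) : pp bl D (ind v) j i = PP bl D v j i := by
  induction i with
  | zero => rfl
  | succ i ih =>
    change ∑ l ∈ blk bl j i, (pp bl D (ind v) j i / D +
      ind v l * (1 - 2 * (pp bl D (ind v) j i / D))) =
      ∑ l ∈ blk bl j i, if v l then 1 - PP bl D v j i / D else PP bl D v j i / D
    refine Finset.sum_congr rfl fun l _ => ?_
    rw [ih]
    unfold ind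
    split_ifs <;> ring

omit [DecidableEq X] in
lemma ip_ind (v : X → Bool) (l : X) : ip bl D (ind v) l = inp bl D v l := by
  unfold ip inp
  rcases hl : bl l with _ | ⟨j, i⟩
  · rfl
  · exact pp_ind bl D v j i

omit [DecidableEq X] in
lemma vtx_eq (v : X → Bool) (l : X) : vtx bl D v l = 1 + YY bl D (ind v) l := by
  unfold vtx YY
  rw [ip_ind]
  unfold ind
  split_ifs <;> ring

/-! ### the rows -/

variable {R : Type} (e : R ≃ X × Bool) (κ : R → ℕ)

lemma row_sub (x : X → ℝ) (r : R) :
    row (mat bl D e κ) x r - rhs bl D e κ r = κ r * (if (e r).2 then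
      (D : ℝ) * (x (e r).1 - 1) + QQ bl (fun l => x l - 1) (e r).1 - D else
      QQ bl (fun l => x l - 1) (e r).1 - (D : ℝ) * (x (e r).1 - 1)) := by
  have h1 : row (mat bl D e κ) x r = κ r * ((if (e r).2 then (D : ℝ) else -D) * x (e r).1 +
      ∑ m ∈ pre bl (e r).1, x m) := by
    unfold row mat
    have h2 : ∀ l, (((κ r : ℤ) * ((if l = (e r).1 then (if (e r).2 then (D : ℤ) else -D) else 0) +
        (if l ∈ pre bl (e r).1 then 1 else 0)) : ℤ) : ℝ) * x l =
        (κ r : ℝ) * ((if l = (e r).1 then (if (e r).2 then (D : ℝ) else -D) * x l else 0) +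
        (if l ∈ pre bl (e r).1 then x l else 0)) := by
      intro l
      split_ifs <;> push_cast <;> ring
    rw [Finset.sum_congr rfl fun l _ => h2 l, ← Finset.mul_sum, Finset.sum_add_distrib]
    congr 2
    · rw [Finset.sum_ite_eq' Finset.univ (e r).1, if_pos (Finset.mem_univ _)]
    · rw [Finset.sum_ite_mem, Finset.univ_inter]
  have h3 : QQ bl (fun l => x l - 1) (e r).1 =
      ∑ m ∈ pre bl (e r).1, x m - ((pre bl (e r).1).card : ℝ) := by
    unfold QQ
    rw [Finset.sum_sub_distrib]
    simp
  rw [h1, h3]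
  unfold rhs
  split_ifs <;> push_cast <;> ring

lemma mem_poly_iff (hκ : ∀ r, 0 < κ r) (x : X → ℝ) :
    x ∈ poly (mat bl D e κ) (rhs bl D e κ) ↔ PM bl D (fun l => x l - 1) := by
  have h1 : ∀ r, row (mat bl D e κ) x r ≤ rhs bl D e κ r ↔ (if (e r).2 then
      (D : ℝ) * (x (e r).1 - 1) + QQ bl (fun l => x l - 1) (e r).1 - D else
      QQ bl (fun l => x l - 1) (e r).1 - (D : ℝ) * (x (e r).1 - 1)) ≤ 0 := by
    intro r
    have hk : (0 : ℝ) < κ r := by exact_mod_cast hκ r
    rw [← sub_nonpos, row_sub]
    constructor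
    · intro h
      by_contra hcon
      push Not at hcon
      have := mul_pos hk hcon
      linarith
    · intro h
      exact mul_nonpos_of_nonneg_of_nonpos hk.le h
  constructor
  · intro h l
    have ht := (h1 (e.symm (l, true))).1 (h _)
    have hf := (h1 (e.symm (l, false))).1 (h _)
    rw [e.apply_symm_apply] at ht hf
    simp only [if_true, Bool.false_eq_true, if_false] at ht hf
    exact ⟨by linarith, by linarith⟩
  · intro h r
    rw [h1]
    obtain ⟨a, b⟩ := h (e r).1
    split_ifs
    · linarith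
    · linarith

/-- a tight row -/
lemma tight (hκ : ∀ r, 0 < κ r) {x : X → ℝ} {r : R} (h : row (mat bl D e κ) x r = rhs bl D e κ r) :
    (if (e r).2 then
      (D : ℝ) * (x (e r).1 - 1) + QQ bl (fun l => x l - 1) (e r).1 - D else
      QQ bl (fun l => x l - 1) (e r).1 - (D : ℝ) * (x (e r).1 - 1)) = 0 := by
  have hk : (κ r : ℝ) ≠ 0 := by exact_mod_cast (hκ r).ne'
  have h1 := row_sub bl D e κ x r
  rw [h, sub_self] at h1
  exact (mul_eq_zero.1 h1.symm).resolve_left hk

end

theorem lpe : LPE := by
  intro J X R _ _ _ bl D e κ β hβ hD hκ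
  have hD0 : 0 < D := by omega
  refine ⟨?_, ?_⟩
  · intro x hx l
    rw [mem_poly_iff bl D e κ hκ] at hx
    have := (PM_bd bl D hβ hD hx).1 l
    constructor <;> linarith
  intro x
  constructor
  · intro hx
    rw [mem_extremePoints] at hx
    obtain ⟨hxP, hext⟩ := hx
    obtain ⟨lam, h0, h1, hy⟩ := exists_lam bl D hβ hD ((mem_poly_iff bl D e κ hκ x).1 hxP)
    have hmem : ∀ lam' : X → ℝ, (∀ l, 0 ≤ lam' l) → (∀ l, lam' l ≤ 1) →
        (fun l => 1 + YY bl D lam' l) ∈ poly (mat bl D e κ) (rhs bl D e κ) := by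
      intro lam' a0 a1
      rw [mem_poly_iff bl D e κ hκ]
      have := PM_YY bl D hβ hD a0 a1
      convert this using 2
      ring
    have h01 : ∀ a, lam a = 0 ∨ lam a = 1 := by
      intro a
      by_contra hcon
      push Not at hcon
      have hu : ∀ s : ℝ, 0 ≤ s → s ≤ 1 → (∀ l, 0 ≤ Function.update lam a s l) ∧
          ∀ l, Function.update lam a s l ≤ 1 := by
        intro s s0 s1
        constructor
        · intro l
          rcases eq_or_ne l a with rfl | hla
          · rw [Function.update_self]; exact s0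
          · rw [Function.update_of_ne hla]; exact h0 l
        · intro l
          rcases eq_or_ne l a with rfl | hla
          · rw [Function.update_self]; exact s1
          · rw [Function.update_of_ne hla]; exact h1 l
      obtain ⟨u0, u0'⟩ := hu 0 le_rfl zero_le_one
      obtain ⟨u1, u1'⟩ := hu 1 zero_le_one le_rfl
      have hpos : 0 < lam a := lt_of_le_of_ne (h0 a) (Ne.symm hcon.1)
      have hlt : lam a < 1 := lt_of_le_of_ne (h1 a) hcon.2
      have hseg : x ∈ openSegment ℝ (fun l => 1 + YY bl D (Function.update lam a 0) l)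
          (fun l => 1 + YY bl D (Function.update lam a 1) l) := by
        refine ⟨1 - lam a, lam a, by linarith, hpos, by ring, ?_⟩
        funext l
        have h2 := congrFun hy l
        rw [YY_affine bl D hD0 lam a] at h2
        simp only [Pi.add_apply, Pi.smul_apply, smul_eq_mul]
        linarith
      have h3 := hext _ (hmem _ u0 u0') _ (hmem _ u1 u1') hseg
      have h4 : (fun l => 1 + YY bl D (Function.update lam a 0) l) =
          fun l => 1 + YY bl D (Function.update lam a 1) l := h3.1.trans h3.2.symm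
      apply YY_ne bl D hβ hD h0 h1 a
      funext l
      have := congrFun h4 l
      linarith
    refine ⟨fun l => decide (lam l = 1), ?_⟩
    have hlam : lam = ind fun l => decide (lam l = 1) := by
      funext l
      unfold ind
      rcases h01 l with h | h
      · simp [h]
      · simp [h]
    funext l
    rw [vtx_eq, ← hlam]
    have := congrFun hy l
    linarith
  · rintro ⟨v, rfl⟩
    have hi0 : ∀ l, 0 ≤ ind v l := fun l => by unfold ind; split_ifs <;> norm_num
    have hi1 : ∀ l, ind v l ≤ 1 := fun l => by unfold ind; split_ifs <;> norm_num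
    have hv : (fun l => vtx bl D v l - 1) = YY bl D (ind v) := by
      funext l
      rw [vtx_eq]
      ring
    have hmem : vtx bl D v ∈ poly (mat bl D e κ) (rhs bl D e κ) := by
      rw [mem_poly_iff bl D e κ hκ, hv]
      exact PM_YY bl D hβ hD hi0 hi1
    rw [mem_extremePoints]
    refine ⟨hmem, ?_⟩
    -- points of the polytope at which the rows of `v` are tight
    have huniq : ∀ z ∈ poly (mat bl D e κ) (rhs bl D e κ),
        (∀ l, row (mat bl D e κ) z (e.symm (l, v l)) = rhs bl D e κ (e.symm (l, v l))) →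
        z = vtx bl D v := by
      intro z hz ht
      have hE : EE bl D (ind v) (fun l => z l - 1) := by
        intro l
        have h1 := tight bl D e κ hκ (ht l)
        rw [e.apply_symm_apply] at h1
        simp only at h1
        unfold ind
        by_cases hvl : v l = true
        · rw [if_pos hvl] at h1 ⊢
          linarith
        · rw [if_neg hvl] at h1 ⊢
          linarith
      have h2 := EE_unique bl D hD0 hE (EE_YY bl D hD0 (ind v))
      funext l
      rw [vtx_eq]
      have := congrFun h2 l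
      linarith
    have hvt : ∀ l, row (mat bl D e κ) (vtx bl D v) (e.symm (l, v l)) =
        rhs bl D e κ (e.symm (l, v l)) := by
      intro l
      have h1 := row_sub bl D e κ (vtx bl D v) (e.symm (l, v l))
      have h2 : (if (e (e.symm (l, v l))).2 then
          (D : ℝ) * (vtx bl D v (e (e.symm (l, v l))).1 - 1) +
            QQ bl (fun l => vtx bl D v l - 1) (e (e.symm (l, v l))).1 - D else
          QQ bl (fun l => vtx bl D v l - 1) (e (e.symm (l, v l))).1 -
            (D : ℝ) * (vtx bl D v (e (e.symm (l, v l))).1 - 1)) = 0 := by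
        rw [e.apply_symm_apply, hv]
        have h3 := EE_YY bl D hD0 (ind v) l
        have h4 : vtx bl D v l - 1 = YY bl D (ind v) l := congrFun hv l
        simp only
        rw [h4]
        unfold ind at h3 ⊢
        by_cases hvl : v l = true
        · rw [if_pos hvl] at h3
          rw [if_pos hvl]
          linarith
        · rw [if_neg hvl] at h3
          rw [if_neg hvl]
          linarith
      rw [h2, mul_zero] at h1
      linarith
    rintro x₁ hx₁ x₂ hx₂ ⟨s, s', hs, hs', hss, hx⟩
    have hrow : ∀ r, s * row (mat bl D e κ) x₁ r + s' * row (mat bl D e κ) x₂ r =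
        row (mat bl D e κ) (vtx bl D v) r := by
      intro r
      rw [← hx]
      unfold row
      rw [Finset.mul_sum, Finset.mul_sum, ← Finset.sum_add_distrib]
      refine Finset.sum_congr rfl fun l _ => ?_
      simp only [Pi.add_apply, Pi.smul_apply, smul_eq_mul]
      ring
    have hboth : ∀ l, row (mat bl D e κ) x₁ (e.symm (l, v l)) = rhs bl D e κ (e.symm (l, v l)) ∧
        row (mat bl D e κ) x₂ (e.symm (l, v l)) = rhs bl D e κ (e.symm (l, v l)) := by
      intro l
      have h1 := hrow (e.symm (l, v l))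
      rw [hvt l] at h1
      have h2 := hx₁ (e.symm (l, v l))
      have h3 := hx₂ (e.symm (l, v l))
      have hR : s * (rhs bl D e κ (e.symm (l, v l)) : ℝ) +
          s' * (rhs bl D e κ (e.symm (l, v l)) : ℝ) = rhs bl D e κ (e.symm (l, v l)) := by
        rw [← add_mul, hss, one_mul]
      constructor
      · refine le_antisymm h2 ?_
        by_contra hcon
        push Not at hcon
        have h4 := mul_lt_mul_of_pos_left hcon hs
        have h5 := mul_le_mul_of_nonneg_left h3 hs'.le
        linarith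
      · refine le_antisymm h3 ?_
        by_contra hcon
        push Not at hcon
        have h4 := mul_lt_mul_of_pos_left hcon hs'
        have h5 := mul_le_mul_of_nonneg_left h2 hs.le
        linarith
    exact ⟨huniq x₁ hx₁ fun l => (hboth l).1, huniq x₂ hx₂ fun l => (hboth l).2⟩

end Pool.Agent.W305.LR
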